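import Mathlib

/-!
# Partition regularity of `x - 2 y = p(z)`: the complete classification
-/

namespace Pool.Agent.Results.MP_0ef770_co.Classification

open Polynomial Filter

/-- The equation `x - 2 y = p(z)` is partition regular over the positive integers: every colouring
of the positive integers with finitely many colours has a solution `x, y, z` in positive integers,
all of the same colour (the values need not be distinct). The colour of `0` plays no role. -/
def PartReg (p : ℤ[X]) : Prop :=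
  ∀ (r : ℕ) (χ : ℕ → Fin r), ∃ x y z : ℕ, 0 < x ∧ 0 < y ∧ 0 < z ∧ χ x = χ y ∧ χ y = χ z ∧
    (x : ℤ) - 2 * (y : ℤ) = p.eval (z : ℤ)

lemma PartReg.mono {p : ℤ[X]} (h : PartReg p) {κ : Type} [Fintype κ] (χ : ℕ → κ) :
    ∃ x y z : ℕ, 0 < x ∧ 0 < y ∧ 0 < z ∧ χ x = χ y ∧ χ y = χ z ∧
    (x : ℤ) - 2 * (y : ℤ) = p.eval (z : ℤ) := by
  classical
  obtain ⟨x, y, z, hx, hy, hz, h1, h2, h3⟩ := h (Fintype.card κ) (fun n => Fintype.equivFin κ (χ n))
  exact ⟨x, y, z, hx, hy, hz, (Fintype.equivFin κ).injective h1,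
    (Fintype.equivFin κ).injective h2, h3⟩

/-! ### van der Waerden and a Brauer type theorem -/

/-- Finite van der Waerden. -/
lemma vdw (r L : ℕ) : ∃ N : ℕ, 0 < N ∧ ∀ χ : ℕ → Fin r, ∃ a d : ℕ, 0 < a ∧ 0 < d ∧ a + L * d ≤ N ∧
    ∀ i ≤ L, χ (a + i * d) = χ a := by
  classical
  obtain ⟨ι, hι, h⟩ := Combinatorics.Line.exists_mono_in_high_dimension (Fin (L + 1)) (Fin r)
  refine ⟨1 + L * Fintype.card ι, by omega, fun χ => ?_⟩
  obtain ⟨l, c, hl⟩ := h (fun v => χ (1 + ∑ i, (v i : ℕ)))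
  let A : Finset ι := Finset.univ.filter (fun i => l.idxFun i = none)
  have hsum : ∀ j : Fin (L + 1), ∑ i, ((l j i : Fin (L+1)) : ℕ) =
      (∑ i, if l.idxFun i = none then 0 else ((l j i : Fin (L+1)) : ℕ)) + A.card * j := by
    intro j
    rw [Finset.card_filter, Finset.sum_mul, ← Finset.sum_add_distrib]
    apply Finset.sum_congr rfl
    intro i _
    by_cases hi : l.idxFun i = none
    · simp [hi]
    · simp [hi]
  have hconst : ∀ j : Fin (L + 1), (∑ i, if l.idxFun i = none then 0 else ((l j i : Fin (L+1)) : ℕ)) =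
      (∑ i, if l.idxFun i = none then 0 else ((l 0 i : Fin (L+1)) : ℕ)) := by
    intro j
    apply Finset.sum_congr rfl
    intro i _
    by_cases hi : l.idxFun i = none
    · simp [hi]
    · simp only [hi, if_false]
      obtain ⟨y, hy⟩ := Option.ne_none_iff_exists'.mp hi
      simp [hy]
  have hA : 0 < A.card := by
    obtain ⟨i, hi⟩ := l.proper
    exact Finset.card_pos.mpr ⟨i, by simp [A, hi]⟩
  refine ⟨1 + (∑ i, if l.idxFun i = none then 0 else ((l 0 i : Fin (L+1)) : ℕ)), A.card, by omega,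
    hA, ?_, ?_⟩
  · have h1 : ∑ i, ((l (Fin.last L) i : Fin (L+1)) : ℕ) ≤ L * Fintype.card ι := by
      calc _ ≤ ∑ _i : ι, L := Finset.sum_le_sum (fun i _ => by
              have := (l (Fin.last L) i).2; omega)
        _ = _ := by simp [mul_comm]
    rw [hsum, hconst, Fin.val_last, mul_comm] at h1
    omega
  · intro i hi
    have e1 := hl ⟨i, by omega⟩
    have e0 := hl 0
    simp only [hsum, hconst] at e1 e0
    rw [show (1 + (∑ i, if l.idxFun i = none then 0 else ((l 0 i : Fin (L+1)) : ℕ))) + i * A.card =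
      1 + ((∑ i, if l.idxFun i = none then 0 else ((l 0 i : Fin (L+1)) : ℕ)) + A.card * i) by ring,
      e1, ← e0]
    simp

/-- Brauer type theorem: in every finite colouring there are `a, d > 0` such that
`a`, `a + d`, `a + 2 d` and `m d` have the same colour. -/
lemma brauer (r m : ℕ) (hm : 0 < m) : ∀ k : ℕ, ∃ M : ℕ, 0 < M ∧ ∀ (χ : ℕ → Fin r)
    (S : Finset (Fin r)) (D : ℕ), 0 < D → S.card ≤ k → (∀ j, 0 < j → j ≤ M → χ (D * j) ∈ S) →
    ∃ a d : ℕ, 0 < a ∧ 0 < d ∧ χ (a + d) = χ a ∧ χ (a + 2 * d) = χ a ∧ χ (m * d) = χ a := by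
  intro k
  induction k with
  | zero =>
    refine ⟨1, one_pos, fun χ S D hD hS h => ?_⟩
    have := h 1 one_pos le_rfl
    rw [Finset.card_eq_zero.mp (Nat.le_zero.mp hS)] at this
    simp at this
  | succ k ih =>
    obtain ⟨M, hM, ih⟩ := ih
    obtain ⟨N, hN, hvdw⟩ := vdw r (2 * M)
    refine ⟨m * N * M, by positivity, fun χ S D hD hS h => ?_⟩
    obtain ⟨a, d, ha, hd, hle, hap⟩ := hvdw (fun n => χ (D * n))
    have haN : a ≤ N := by omega
    have hdN : d ≤ N := by
      have : d ≤ 2 * M * d := Nat.le_mul_of_pos_left _ (by omega)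
      omega
    by_cases hc : ∃ j, 0 < j ∧ j ≤ M ∧ χ (m * (D * (d * j))) = χ (D * a)
    · obtain ⟨j, hj, hjM, hj2⟩ := hc
      refine ⟨D * a, D * (d * j), by positivity, by positivity, ?_, ?_, hj2⟩
      · have := hap j (by omega)
        rw [← this]
        congr 1
        ring
      · have := hap (2 * j) (by omega)
        rw [← this]
        congr 1
        ring
    · push Not at hc
      apply ih χ (S.erase (χ (D * a))) (m * D * d) (by positivity)
      · have hmem : χ (D * a) ∈ S := h a ha (by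
          calc a ≤ N := haN
            _ = 1 * N * 1 := by ring
            _ ≤ m * N * M := by gcongr <;> omega)
        rw [Finset.card_erase_of_mem hmem]
        omega
      · intro j hj hjM
        rw [Finset.mem_erase]
        refine ⟨?_, ?_⟩
        · have := hc j hj hjM
          rwa [show m * (D * (d * j)) = m * D * d * j by ring] at this
        · rw [show m * D * d * j = D * (m * d * j) by ring]
          apply h _ (by positivity)
          gcongr

lemma brauer' {r : ℕ} (χ : ℕ → Fin r) {m : ℕ} (hm : 0 < m) :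
    ∃ a d : ℕ, 0 < a ∧ 0 < d ∧ χ (a + d) = χ a ∧ χ (a + 2 * d) = χ a ∧ χ (m * d) = χ a := by
  obtain ⟨M, -, h⟩ := brauer r m hm r
  exact h χ Finset.univ 1 one_pos (by simp) (by simp)

/-! ### Positive direction -/

lemma partReg_const {p : ℤ[X]} (h : ∃ n : ℕ, 0 < n ∧ p.eval (n : ℤ) = -(n : ℤ)) : PartReg p := by
  obtain ⟨n, hn, h⟩ := h
  intro r χ
  exact ⟨n, n, n, hn, hn, hn, rfl, rfl, by rw [h]; ring⟩

lemma partReg_X (b : ℤ) : PartReg (X + C (2 * b)) := by
  intro r χ
  obtain ⟨N, hN⟩ : ∃ N : ℕ, N = b.natAbs + 1 := ⟨_, rfl⟩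
  have hpos : ∀ n : ℕ, 0 < n → 0 < (N : ℤ) * n - b := by
    intro n hn
    have h1 : (1 : ℤ) ≤ n := by exact_mod_cast hn
    have h2 : b < N := by rw [hN]; push_cast; have := le_abs_self b; omega
    have h3 : (0:ℤ) ≤ N := by positivity
    nlinarith
  obtain ⟨a, d, ha, hd, h1, h2, h3⟩ := brauer' (fun n => χ (((N : ℤ) * n - b).toNat)) one_pos
  simp only [one_mul] at h1 h2 h3
  have hx := hpos (a + 2 * d) (by omega)
  have hy := hpos d hd
  have hz := hpos a ha
  refine ⟨((N : ℤ) * ((a + 2 * d : ℕ) : ℤ) - b).toNat, ((N : ℤ) * (d : ℤ) - b).toNat,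
    ((N : ℤ) * (a : ℤ) - b).toNat, by omega, by omega, by omega, ?_, ?_, ?_⟩
  · rw [h2, h3]
  · rw [h3]
  · rw [Int.toNat_of_nonneg hx.le, Int.toNat_of_nonneg hy.le, Int.toNat_of_nonneg hz.le]
    simp only [eval_add, eval_X, eval_C]
    push_cast
    ring

lemma partReg_neg_two_X (b : ℤ) : PartReg (C (-2) * X + C b) := by
  intro r χ
  obtain ⟨N, hN⟩ : ∃ N : ℕ, N = b.natAbs + 1 := ⟨_, rfl⟩
  have hpos : ∀ n : ℕ, 0 < n → 0 < (N : ℤ) * n + b := by
    intro n hn
    have h1 : (1 : ℤ) ≤ n := by exact_mod_cast hn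
    have h2 : -b < N := by rw [hN]; push_cast; have := neg_abs_le b; omega
    have h3 : (0:ℤ) ≤ N := by positivity
    nlinarith
  obtain ⟨a, d, ha, hd, h1, h2, h3⟩ := brauer' (fun n => χ (((N : ℤ) * n + b).toNat)) two_pos
  have hx := hpos (2 * d) (by omega)
  have hy := hpos (a + d) (by omega)
  have hz := hpos a ha
  refine ⟨((N : ℤ) * ((2 * d : ℕ) : ℤ) + b).toNat, ((N : ℤ) * ((a + d : ℕ) : ℤ) + b).toNat,
    ((N : ℤ) * (a : ℤ) + b).toNat, by omega, by omega, by omega, ?_, ?_, ?_⟩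
  · rw [h1, h3]
  · rw [h1]
  · rw [Int.toNat_of_nonneg hx.le, Int.toNat_of_nonneg hy.le, Int.toNat_of_nonneg hz.le]
    simp only [eval_add, eval_mul, eval_X, eval_C]
    push_cast
    ring

/-! ### Negative direction, degree at most one -/

/-- colouring by the last nonzero digit in base `q` -/
lemma lin_color {c : ℤ} (hc1 : c ≠ 1) (hc2 : c ≠ -1) (hc3 : c ≠ -2) :
    ∃ (κ : Type) (_ : Fintype κ) (χ : ℕ → κ), ∀ x y z : ℕ, 0 < x → 0 < y → 0 < z →
      χ x = χ y → χ y = χ z → (x : ℤ) - 2 * y ≠ c * z := by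
  by_cases hc0 : c = 0
  · refine ⟨ZMod 2, inferInstance, fun n => (n.factorization 2 : ZMod 2), ?_⟩
    intro x y z hx hy hz h1 h2 h3
    have h4 : x = 2 * y := by
      rw [hc0] at h3
      omega
    have h5 : x.factorization 2 = y.factorization 2 + 1 := by
      rw [h4, Nat.factorization_mul (by norm_num) (by omega)]
      simp [Nat.prime_two.factorization_self, add_comm]
    have h6 : ((x.factorization 2 : ℕ) : ZMod 2) = (y.factorization 2 : ℕ) := h1
    rw [h5] at h6
    push_cast at h6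
    have h7 : (1 : ZMod 2) = 0 := by linear_combination h6
    exact absurd h7 (by decide)
  obtain ⟨q, hq, hqp⟩ := Nat.exists_infinite_primes (c.natAbs + 3)
  have : Fact q.Prime := ⟨hqp⟩
  refine ⟨ZMod q, inferInstance, fun n => ((n / q ^ (n.factorization q) : ℕ) : ZMod q), ?_⟩
  intro x y z hx hy hz h1 h2 h3
  -- the small integers are nonzero mod q
  have hsmall : ∀ s : ℤ, s ≠ 0 → s.natAbs < q → ((s : ℤ) : ZMod q) ≠ 0 := by
    intro s hs hsq h0
    rw [ZMod.intCast_zmod_eq_zero_iff_dvd] at h0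
    have := Int.natAbs_dvd_natAbs.mpr h0
    rw [Int.natAbs_natCast] at this
    exact absurd (Nat.le_of_dvd (Int.natAbs_pos.mpr hs) this) (by omega)
  have key : ∀ n : ℕ, 0 < n → ((n / q ^ (n.factorization q) : ℕ) : ZMod q) ≠ 0 := by
    intro n hn h0
    rw [ZMod.natCast_eq_zero_iff] at h0
    exact Nat.not_dvd_ordCompl hqp hn.ne' h0
  have hux := Nat.ordProj_mul_ordCompl_eq_self x q
  have huy := Nat.ordProj_mul_ordCompl_eq_self y q
  have huz := Nat.ordProj_mul_ordCompl_eq_self z q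
  have hkz := key z hz
  obtain ⟨x', hx'⟩ : ∃ x', x' = x / q ^ (x.factorization q) := ⟨_, rfl⟩
  obtain ⟨y', hy'⟩ : ∃ y', y' = y / q ^ (y.factorization q) := ⟨_, rfl⟩
  obtain ⟨z', hz'⟩ : ∃ z', z' = z / q ^ (z.factorization q) := ⟨_, rfl⟩
  obtain ⟨a, ha⟩ : ∃ a, a = x.factorization q := ⟨_, rfl⟩
  obtain ⟨b, hb⟩ : ∃ b, b = y.factorization q := ⟨_, rfl⟩
  obtain ⟨e, he⟩ : ∃ e, e = z.factorization q := ⟨_, rfl⟩
  simp only [← hx', ← hy', ← hz'] at h1 h2 hux huy huz hkz
  simp only [← ha, ← hb, ← he] at hux huy huz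
  obtain ⟨m, a', b', e', hma, hmb, hme, hor⟩ : ∃ m a' b' e' : ℕ, a = m + a' ∧ b = m + b' ∧
      e = m + e' ∧ (a' = 0 ∨ b' = 0 ∨ e' = 0) := by
    refine ⟨min a (min b e), a - min a (min b e), b - min a (min b e), e - min a (min b e),
      by omega, by omega, by omega, by omega⟩
  have h4 : (q:ℤ) ^ a' * x' - 2 * (q ^ b' * y') = c * (q ^ e' * z') := by
    have hqm : (q:ℤ) ^ m ≠ 0 := by
      have := hqp.pos
      positivity
    apply mul_left_cancel₀ hqm
    rw [← hux, ← huy, ← huz, hma, hmb, hme] at h3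
    push_cast at h3
    rw [pow_add, pow_add, pow_add] at h3
    linear_combination h3
  have h5 : ((((q:ℤ) ^ a' * x' - 2 * (q ^ b' * y') : ℤ)) : ZMod q) = ((c * (q ^ e' * z') : ℤ) : ZMod q) := by
    rw [h4]
  push_cast at h5
  rw [h1, h2] at h5
  have h6 : (q : ZMod q) = 0 := ZMod.natCast_self q
  rw [h6] at h5
  have h7 : ((0:ZMod q) ^ a' - 2 * 0 ^ b' - c * 0 ^ e') = 0 := by
    have : ((0:ZMod q) ^ a' - 2 * 0 ^ b' - c * 0 ^ e') * z' = 0 := by
      linear_combination h5
    exact (mul_eq_zero.mp this).resolve_right hkz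
  have aux : ∀ s : ℤ, s ≠ 0 → s.natAbs < q → (s : ZMod q) = 0 → False :=
    fun s hs hsq h => hsmall s hs hsq h
  rcases Nat.eq_zero_or_pos a' with h | h <;> rcases Nat.eq_zero_or_pos b' with h' | h' <;>
    rcases Nat.eq_zero_or_pos e' with h'' | h''
  · rw [h, h', h''] at h7
    exact aux (-1 - c) (by omega) (by omega) (by push_cast; linear_combination h7)
  · rw [h, h', zero_pow h''.ne'] at h7
    exact aux (-1) (by omega) (by omega) (by push_cast; linear_combination h7)
  · rw [h, zero_pow h'.ne', h''] at h7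
    exact aux (1 - c) (by omega) (by omega) (by push_cast; linear_combination h7)
  · rw [h, zero_pow h'.ne', zero_pow h''.ne'] at h7
    exact aux 1 (by omega) (by omega) (by push_cast; linear_combination h7)
  · rw [zero_pow h.ne', h', h''] at h7
    exact aux (-2 - c) (by omega) (by omega) (by push_cast; linear_combination h7)
  · rw [zero_pow h.ne', h', zero_pow h''.ne'] at h7
    exact aux (-2) (by omega) (by omega) (by push_cast; linear_combination h7)
  · rw [zero_pow h.ne', zero_pow h'.ne', h''] at h7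
    exact aux (-c) (by omega) (by omega) (by push_cast; linear_combination h7)
  · omega

/-- the congruence obstruction -/
lemma congr_color {p : ℤ[X]} (m : ℕ) (hm : 0 < m) (h : ∀ z : ℕ, ¬ ((m : ℤ) ∣ p.eval (z:ℤ) + z)) :
    ¬ PartReg p := by
  intro hp
  have : NeZero m := ⟨hm.ne'⟩
  obtain ⟨x, y, z, hx, hy, hz, h1, h2, h3⟩ := hp.mono (fun n => (n : ZMod m))
  apply h z
  rw [← ZMod.intCast_zmod_eq_zero_iff_dvd, ← h3]
  push_cast
  have h1' : (x : ZMod m) = y := h1
  have h2' : (y : ZMod m) = z := h2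
  rw [h1', h2']
  ring

lemma not_partReg_lin {c b : ℤ} (h1 : ¬ (c = 1 ∧ 2 ∣ b)) (h2 : c ≠ -2)
    (h3 : ¬ ∃ n : ℕ, 0 < n ∧ c * n + b = -(n : ℤ)) : ¬ PartReg (C c * X + C b) := by
  by_cases hc1 : c = 1
  · apply congr_color 2 two_pos
    intro z
    simp only [eval_add, eval_mul, eval_X, eval_C]
    push_cast
    rw [hc1]
    intro h
    apply h1 ⟨hc1, ?_⟩
    omega
  by_cases hc2 : c = -1
  · apply congr_color (b.natAbs + 1) (by omega)
    intro z
    simp only [eval_add, eval_mul, eval_X, eval_C]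
    rw [hc2]
    intro h
    have h' : ((b.natAbs + 1 : ℕ) : ℤ) ∣ b := by
      have : -1 * (z:ℤ) + b + z = b := by ring
      rwa [this] at h
    have hb : b = 0 := by
      by_contra hb
      have := Int.natAbs_dvd_natAbs.mpr h'
      rw [Int.natAbs_natCast] at this
      exact absurd (Nat.le_of_dvd (Int.natAbs_pos.mpr hb) this) (by omega)
    apply h3
    exact ⟨1, one_pos, by rw [hb, hc2]; norm_num⟩
  by_cases hd : (1 + c) ∣ b
  · obtain ⟨s, hs⟩ := hd
    have hs0 : 0 ≤ s := by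
      by_contra hcon
      push Not at hcon
      apply h3
      refine ⟨s.natAbs, by omega, ?_⟩
      rw [hs]
      have : (s.natAbs : ℤ) = -s := by omega
      rw [this]
      ring
    obtain ⟨κ, hκ, χ, hχ⟩ := lin_color hc1 hc2 h2
    intro hp
    obtain ⟨x, y, z, hx, hy, hz, e1, e2, e3⟩ := hp.mono (fun n => χ (n + s.natAbs))
    apply hχ (x + s.natAbs) (y + s.natAbs) (z + s.natAbs) (by omega) (by omega) (by omega) e1 e2
    simp only [eval_add, eval_mul, eval_X, eval_C] at e3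
    push_cast
    have : |s| = s := abs_of_nonneg hs0
    rw [this]
    rw [hs] at e3
    linear_combination e3
  · apply congr_color (1 + c).natAbs (by omega)
    intro z
    simp only [eval_add, eval_mul, eval_X, eval_C]
    intro h
    apply hd
    rw [Int.natCast_natAbs, abs_dvd] at h
    have : b = (c * z + b + z) - (1 + c) * z := by ring
    rw [this]
    exact dvd_sub h (Dvd.intro _ rfl)

/-! ### Negative direction, degree at least two -/

lemma cast_ne {s t : ℤ} (h1 : t + 1 ≤ s) (h2 : s ≤ t + 3) : (s : ZMod 4) ≠ (t : ZMod 4) := by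
  intro h
  have h' : ((s - t : ℤ) : ZMod 4) = 0 := by push_cast; rw [h]; ring
  rw [ZMod.intCast_zmod_eq_zero_iff_dvd] at h'
  push_cast at h'
  omega

lemma log_color {x y : ℕ} (hy : 0 < y) (h1 : 2 * y ^ 2 ≤ x ^ 2) (h2 : x ^ 2 < 8 * y ^ 2) :
    ((Nat.log 2 (x ^ 2) : ℤ) : ZMod 4) ≠ ((Nat.log 2 (y ^ 2) : ℤ) : ZMod 4) := by
  have hy2 : y ^ 2 ≠ 0 := by positivity
  apply cast_ne
  · have e1 : Nat.log 2 (y ^ 2) + 1 = Nat.log 2 (y ^ 2 * 2) := (Nat.log_mul_base (by norm_num) hy2).symm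
    have e2 := Nat.log_mono_right (b := 2) (show y ^ 2 * 2 ≤ x ^ 2 by omega)
    omega
  · have e1 : Nat.log 2 (y ^ 2) + 3 = Nat.log 2 (y ^ 2 * 2 * 2 * 2) := by
      rw [Nat.log_mul_base (by norm_num) (by positivity), Nat.log_mul_base (by norm_num) (by positivity),
        Nat.log_mul_base (by norm_num) hy2]
    have e2 := Nat.log_mono_right (b := 2) (show x ^ 2 ≤ y ^ 2 * 2 * 2 * 2 by omega)
    omega

/-- the colouring by iterated logarithms separates numbers `z` and `u ≍ z ^ d` -/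
lemma loglog_color {d : ℕ} (hd : 2 ≤ d) {k K : ℝ} (hk : 0 < k) (hK : 0 < K) :
    ∀ᶠ z : ℕ in atTop, ∀ u : ℕ, k * (z:ℝ) ^ d ≤ u → (u:ℝ) ≤ K * (z:ℝ) ^ d →
      ((⌊2 * Real.logb d (Real.log u)⌋ : ℤ) : ZMod 4) ≠
        ((⌊2 * Real.logb d (Real.log z)⌋ : ℤ) : ZMod 4) := by
  have hd2 : (2:ℝ) ≤ d := by exact_mod_cast hd
  have hs1 : Real.sqrt d < d := by
    rw [Real.sqrt_lt' (by linarith)]
    nlinarith
  have hs0 : 0 < Real.sqrt d := Real.sqrt_pos.mpr (by linarith)
  have hs2 : (d:ℝ) < d * Real.sqrt d := by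
    have : (1:ℝ) < Real.sqrt d := by
      rw [Real.lt_sqrt (by norm_num)]
      linarith
    nlinarith
  have hlog : Tendsto (fun z : ℕ => Real.log (z:ℝ)) atTop atTop :=
    Real.tendsto_log_atTop.comp tendsto_natCast_atTop_atTop
  have e1 := hlog.eventually_ge_atTop (-(Real.log k) / (d - Real.sqrt d))
  have e2 := hlog.eventually_gt_atTop (Real.log K / (d * Real.sqrt d - d))
  filter_upwards [e1, e2, hlog.eventually_gt_atTop 0, eventually_gt_atTop 1] with z h1 h2 h3 h4
  intro u hu1 hu2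
  have hz : (0:ℝ) < z := by exact_mod_cast (by omega : 0 < z)
  have hu : (0:ℝ) < u := lt_of_lt_of_le (by positivity) hu1
  have l1 : Real.log k + d * Real.log z ≤ Real.log u := by
    have := Real.log_le_log (by positivity) hu1
    rwa [Real.log_mul hk.ne' (by positivity), Real.log_pow] at this
  have l2 : Real.log u ≤ Real.log K + d * Real.log z := by
    have := Real.log_le_log (by positivity) hu2
    rwa [Real.log_mul hK.ne' (by positivity), Real.log_pow] at this
  rw [div_le_iff₀ (by linarith)] at h1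
  rw [div_lt_iff₀ (by linarith)] at h2
  have l3 : Real.sqrt d * Real.log z ≤ Real.log u := by nlinarith
  have l4 : Real.log u < d * Real.sqrt d * Real.log z := by nlinarith
  have hlu : 0 < Real.log u := lt_of_lt_of_le (by positivity) l3
  have hd1 : (1:ℝ) < d := by linarith
  have hsq : Real.logb d (Real.sqrt d) = 1 / 2 := by
    rw [Real.sqrt_eq_rpow, Real.logb_rpow (by linarith) (by linarith)]
  have l5 : 1 / 2 + Real.logb d (Real.log z) ≤ Real.logb d (Real.log u) := by
    have := (Real.logb_le_logb hd1 (by positivity) hlu).mpr l3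
    rwa [Real.logb_mul hs0.ne' h3.ne', hsq] at this
  have l6 : Real.logb d (Real.log u) < 3 / 2 + Real.logb d (Real.log z) := by
    have := (Real.logb_lt_logb_iff hd1 hlu (by positivity)).mpr l4
    rw [Real.logb_mul (by positivity) h3.ne', Real.logb_mul (by positivity) hs0.ne', hsq,
      Real.logb_self_eq_one hd1] at this
    linarith
  apply cast_ne
  · rw [← Int.floor_add_one]
    apply Int.floor_le_floor
    linarith
  · rw [show (3:ℤ) = ((3:ℕ):ℤ) by norm_num, ← Int.floor_add_natCast]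
    apply Int.floor_le_floor
    push_cast
    linarith

lemma not_partReg_deg {p : ℤ[X]} (hd : 2 ≤ p.natDegree)
    (h3 : ¬ ∃ n : ℕ, 0 < n ∧ p.eval (n:ℤ) = -(n : ℤ)) : ¬ PartReg p := by
  intro hp
  obtain ⟨P, hP⟩ : ∃ P : ℝ[X], P = p.map (Int.castRingHom ℝ) := ⟨_, rfl⟩
  have hinj : Function.Injective (Int.castRingHom ℝ) := Int.cast_injective
  have hdeg : P.natDegree = p.natDegree := by
    rw [hP]; exact natDegree_map_eq_of_injective hinj p
  have hP0 : P ≠ 0 := by
    intro h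
    rw [h, natDegree_zero] at hdeg
    omega
  have heval : ∀ z : ℕ, P.eval (z:ℝ) = ((p.eval (z:ℤ) : ℤ) : ℝ) := by
    intro z
    have := Polynomial.eval_intCast_map (Int.castRingHom ℝ) p (z:ℤ)
    rw [hP]
    simpa using this
  obtain ⟨a, ha⟩ : ∃ a, a = P.leadingCoeff := ⟨_, rfl⟩
  have ha0 : a ≠ 0 := by rw [ha]; exact leadingCoeff_ne_zero.mpr hP0
  have hA : 0 < |a| := abs_pos.mpr ha0
  obtain ⟨d, hd'⟩ : ∃ d, d = p.natDegree := ⟨_, rfl⟩
  rw [← hd'] at hd hdeg
  have hasym : ∀ᶠ x : ℝ in atTop, |P.eval x - a * x ^ d| ≤ 1 / 2 * |a * x ^ d| := by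
    have := (Polynomial.isEquivalent_atTop_lead P).isLittleO.def (show (0:ℝ) < 1 / 2 by norm_num)
    rw [hdeg, ← ha] at this
    simpa using this
  have hasymN : ∀ᶠ z : ℕ in atTop, |P.eval (z:ℝ) - a * (z:ℝ) ^ d| ≤ 1 / 2 * |a * (z:ℝ) ^ d| :=
    tendsto_natCast_atTop_atTop.eventually hasym
  have hll := loglog_color hd (k := |a| / 4) (K := 9 * |a|) (by positivity) (by positivity)
  obtain ⟨Z, hZ⟩ := eventually_atTop.mp (hasymN.and hll)
  obtain ⟨x, y, z, hx, hy, hz, h1, h2, heq⟩ := hp.mono (κ := ZMod 4 × ZMod 4 × Fin (Z + 2))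
    (fun n => (((Nat.log 2 (n ^ 2) : ℤ) : ZMod 4),
      ((⌊2 * Real.logb d (Real.log n)⌋ : ℤ) : ZMod 4), (⟨min n (Z + 1), by omega⟩ : Fin (Z + 2))))
  simp only [Prod.mk.injEq, Fin.mk.injEq] at h1 h2
  obtain ⟨a1, a2, a3⟩ := h1
  obtain ⟨b1, b2, b3⟩ := h2
  rcases le_or_gt z Z with hzZ | hzZ
  · have hyz : y = z := by omega
    have hxz : x = z := by omega
    apply h3
    refine ⟨z, hz, ?_⟩
    rw [← heq, hyz, hxz]
    ring
  obtain ⟨hb, hc⟩ := hZ z hzZ.le
  rw [heval] at hb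
  have heqR : (x:ℝ) - 2 * y = ((p.eval (z:ℤ) : ℤ) : ℝ) := by
    rw [← heq]; push_cast; ring
  rw [← heqR] at hb
  have hzp : (0:ℝ) < (z:ℝ) ^ d := by positivity
  have hyR : (0:ℝ) < y := by exact_mod_cast hy
  have hxR : (0:ℝ) < x := by exact_mod_cast hx
  obtain ⟨T, hT⟩ : ∃ T, T = |a| * (z:ℝ) ^ d := ⟨_, rfl⟩
  have hTpos : 0 < T := by rw [hT]; positivity
  rw [abs_mul a, abs_of_pos hzp, ← hT, abs_le] at hb
  have hcx : ∀ u : ℕ, 1 / 4 * T ≤ u → (u:ℝ) ≤ 9 * T →
      ((⌊2 * Real.logb d (Real.log u)⌋ : ℤ) : ZMod 4) ≠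
        ((⌊2 * Real.logb d (Real.log z)⌋ : ℤ) : ZMod 4) := by
    intro u hu1 hu2
    apply hc u
    · rw [hT] at hu1; linarith
    · rw [hT] at hu2; linarith
  rcases lt_or_gt_of_ne ha0 with hneg | hpos
  · -- the leading coefficient is negative
    have haT : a * (z:ℝ) ^ d = -T := by rw [hT, abs_of_neg hneg]; ring
    rw [haT] at hb
    obtain ⟨hb1, hb2⟩ := hb
    by_cases hcase : 5 * (2 * (y:ℝ) - x) ≤ 2 * x
    · apply log_color hy _ _ a1
      · have : (2 * (y:ℝ) ^ 2) ≤ (x:ℝ) ^ 2 := by nlinarith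
        exact_mod_cast this
      · have : ((x:ℝ) ^ 2) < 8 * (y:ℝ) ^ 2 := by nlinarith
        exact_mod_cast this
    · push Not at hcase
      apply hcx y _ _ b2
      · linarith
      · linarith
  · have haT : a * (z:ℝ) ^ d = T := by rw [hT, abs_of_pos hpos]
    rw [haT] at hb
    obtain ⟨hb1, hb2⟩ := hb
    by_cases hcase : 5 * ((x:ℝ) - 2 * y) ≤ 2 * y
    · apply log_color hy _ _ a1
      · have : (2 * (y:ℝ) ^ 2) ≤ (x:ℝ) ^ 2 := by nlinarith
        exact_mod_cast this
      · have : ((x:ℝ) ^ 2) < 8 * (y:ℝ) ^ 2 := by nlinarith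
        exact_mod_cast this
    · push Not at hcase
      apply hcx x _ _ (a2.trans b2)
      · linarith
      · linarith

/-- **Classification.** For an arbitrary polynomial `p` with integer coefficients (the case
`p(0) = 0` is the one asked for), the equation `x - 2 y = p(z)` is partition regular if and only if
`p(n) = -n` for some positive integer `n`, or `p = t + 2 b`, or `p = -2 t + b`, with `b` an
integer. -/
theorem result (p : ℤ[X]) : PartReg p ↔
    (∃ n : ℕ, 0 < n ∧ p.eval (n : ℤ) = -(n : ℤ)) ∨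
    (∃ b : ℤ, p = X + C (2 * b)) ∨ (∃ b : ℤ, p = C (-2) * X + C b) := by
  constructor
  · intro hp
    by_contra hcon
    push Not at hcon
    obtain ⟨h1, h2, h3⟩ := hcon
    have h1' : ¬ ∃ n : ℕ, 0 < n ∧ p.eval (n:ℤ) = -(n : ℤ) := by
      push Not
      exact h1
    rcases le_or_gt 2 p.natDegree with hd | hd
    · exact not_partReg_deg hd h1' hp
    · have hp1 : p = C (p.coeff 1) * X + C (p.coeff 0) := eq_X_add_C_of_natDegree_le_one (by omega)
      obtain ⟨c, hc⟩ : ∃ c, c = p.coeff 1 := ⟨_, rfl⟩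
      obtain ⟨b, hb⟩ : ∃ b, b = p.coeff 0 := ⟨_, rfl⟩
      rw [← hc, ← hb] at hp1
      rw [hp1] at hp h1' h2 h3
      refine not_partReg_lin ?_ ?_ ?_ hp
      · rintro ⟨rfl, b', rfl⟩
        apply h2 b'
        simp
      · rintro rfl
        exact h3 b rfl
      · rintro ⟨n, hn, hn'⟩
        apply h1'
        refine ⟨n, hn, ?_⟩
        simp only [eval_add, eval_mul, eval_X, eval_C]
        exact hn'
  · rintro (h | ⟨b, rfl⟩ | ⟨b, rfl⟩)
    · exact partReg_const h
    · exact partReg_X b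
    · exact partReg_neg_two_X b

end Pool.Agent.Results.MP_0ef770_co.Classification
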